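import Mathlib
import Pool.Agent.Helper41.HilbDefs
import Pool.Agent.Helper41.HilbFinal

set_option autoImplicit false

namespace Pool.Agent.Results.MP_5317c0_an.ThreeParts

open Pool.Agent.Helper41.Hilb

/-- The answers to the three parts: (a) is false, (b) is false, (c) is true (even without the
recurrence hypothesis). -/
theorem result :
    (¬ ∀ (Y : Type) [TopologicalSpace Y] [CompactSpace Y] [T2Space Y]
        [TopologicalSpace.MetrizableSpace Y] (S : Y ≃ₜ Y),
        IsRecurrentTransitive S → IsHilbertSystem S → IsHilbertRepresentable S) ∧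
    (¬ ∀ (Y : Type) [TopologicalSpace Y] [CompactSpace Y] [T2Space Y]
        [TopologicalSpace.MetrizableSpace Y] (S : Y ≃ₜ Y),
        IsRecurrentTransitive S → IsHilbertSystem S → IsGroupFactorOfHR S) ∧
    (∀ (Y : Type) [TopologicalSpace Y] [CompactSpace Y] [T2Space Y]
        [TopologicalSpace.MetrizableSpace Y] (S : Y ≃ₜ Y),
        IsHilbertSystem S → IsAlmostOneOneImageOfHR S) := full_answer

end Pool.Agent.Results.MP_5317c0_an.ThreeParts
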